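import Pool.Agent.Lib.helper16.Spec

set_option autoImplicit false

namespace Pool.Agent.H.MP_4362c3_ag

open MvPolynomial Finset

/-- `f` is a sum of partial derivatives of rational functions `a i / b i`, written with the
quotient rule -/
def RatInt {k : Type} [Field k] {m : ℕ} (f : FractionRing (MvPolynomial (Fin m) k)) : Prop :=
  ∃ a b : Fin m → MvPolynomial (Fin m) k, (∀ i, b i ≠ 0) ∧
    f = ∑ i, algebraMap _ _ (b i * pderiv i (a i) - a i * pderiv i (b i)) /
      algebraMap _ _ (b i) ^ 2

theorem charp {F : Type} [Field F] (p m r : ℕ) (hp : p.Prime) [CharP F p] (hm : m ≠ 0)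
    (hr : p = m * r + 2 - 1) (A : Fin m → MvPolynomial (Fin m) F) (B : MvPolynomial (Fin m) F)
    (h : B ^ 2 = (∑ i, X i ^ m) * ∑ i, (B * pderiv i (A i) - A i * pderiv i B)) : B = 0 := by
  classical
  haveI := Fact.mk hp
  by_contra hB
  obtain ⟨b, hb⟩ := ne_zero_iff.1 hB
  obtain ⟨q, hq⟩ : ∃ q, p = q + 2 := ⟨p - 2, by have := hp.two_le; omega⟩
  have hqr : q + 1 = m * r := by omega
  set Q : MvPolynomial (Fin m) F := ∑ i, X i ^ m with hQ
  have c0 : ((q + 2 : ℕ) : MvPolynomial (Fin m) F) = 0 := by
    rw [← hq]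
    exact CharP.cast_eq_zero _ p
  have e : B ^ p * Q ^ (q + 1) = ∑ i, pderiv i (Q ^ p * A i * B ^ (q + 1)) := by
    have : ∀ i, pderiv i (Q ^ p * A i * B ^ (q + 1)) =
        Q ^ p * B ^ q * (B * pderiv i (A i) - A i * pderiv i B) := fun i => by
      push_cast at c0
      simp only [hq, Derivation.leibniz, Derivation.leibniz_pow, smul_eq_mul, nsmul_eq_mul,
        Nat.add_succ_sub_one, add_zero]
      push_cast
      linear_combination (Q ^ (q + 2) * A i * B ^ q * pderiv i B +
        B ^ (q + 1) * A i * Q ^ (q + 1) * pderiv i Q) * c0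
    simp only [this, ← mul_sum]
    rw [hq]
    linear_combination Q ^ (q + 1) * B ^ q * h
  let o : Fin m →₀ ℕ := Finsupp.equivFunOnFinite.symm fun _ => r
  have e2 := congrArg (coeff (p • b + m • o)) e
  rw [coeff_sum, sum_eq_zero fun i _ => by
    rw [coeff_pderiv]
    have : (((p • b + m • o) i : ℕ) : F) + 1 = 0 := by
      have : (p • b + m • o) i + 1 = p * (b i + 1) := by
        simp [o]
        rw [← hqr, hq]
        ring
      rw [← Nat.cast_succ, Nat.succ_eq_add_one, this, Nat.cast_mul, CharP.cast_eq_zero, zero_mul]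
    rw [this, mul_zero]] at e2
  have hom : (Q ^ (q + 1)).IsHomogeneous (m * (q + 1)) := by
    refine IsHomogeneous.pow (IsHomogeneous.sum _ _ _ fun i _ => ?_) _
    simpa using (isHomogeneous_X F i).pow m
  conv_lhs at e2 => rw [B.as_sum, sum_pow_char, sum_mul, coeff_sum]
  rw [sum_eq_single b] at e2
  · rw [monomial_pow, coeff_monomial_mul] at e2
    have e3 : Q ^ (q + 1) = expand m ((∑ i, X i) ^ (q + 1)) := by simp [hQ]
    rw [e3, coeff_expand_smul _ hm, coeff_sum_X_pow_of_fintype, if_pos (by
      simp [Finsupp.sum_fintype, o, hqr]), mul_eq_zero] at e2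
    refine e2.elim (pow_ne_zero _ hb) fun z => ?_
    rw [CharP.cast_eq_zero_iff F p, Finsupp.multinomial_eq] at z
    have := z.trans (Dvd.intro_left _ (Nat.multinomial_spec o.support o))
    rw [hp.dvd_factorial] at this
    have l : ∑ i ∈ o.support, o i ≤ ∑ i, o i := sum_le_sum_of_subset (subset_univ _)
    simp only [o, Finsupp.equivFunOnFinite_symm_apply_apply, sum_const, card_univ,
      Fintype.card_fin, smul_eq_mul] at l this
    omega
  · intro c _ hc
    rw [monomial_pow, coeff_monomial_mul']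
    split_ifs with hle
    swap
    · rfl
    rw [hom.coeff_eq_zero, mul_zero]
    have l : ∀ i, c i ≤ b i := fun i => by
      have := hle i
      simp [o] at this
      by_contra hn
      have : p * (b i + 1) ≤ p * c i := Nat.mul_le_mul_left _ (by omega)
      nlinarith
    have l2 : ∀ i, (p • b + m • o - p • c) i = p * (b i - c i) + (q + 1) := fun i => by
      have := Nat.mul_le_mul_left p (l i)
      simp [o, Nat.mul_sub]
      omega
    rw [Finsupp.degree_eq_sum]
    simp only [l2]
    rw [sum_add_distrib, sum_const, card_univ, Fintype.card_fin, smul_eq_mul]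
    intro z
    have z2 : ∑ i, p * (b i - c i) = 0 := by omega
    apply hc
    ext i
    have := (sum_eq_zero_iff.1 z2) i (mem_univ i)
    have := l i
    have := hp.pos
    have : b i - c i = 0 := by simp_all
    omega
  · intro hn
    exact (hn (mem_support_iff.2 hb)).elim

theorem char0 {k : Type} [Field k] [CharZero k] (m : ℕ) (hm : m ≠ 0)
    (A : Fin m → MvPolynomial (Fin m) k) (B : MvPolynomial (Fin m) k)
    (h : B ^ 2 = (∑ i, X i ^ m) * ∑ i, (B * pderiv i (A i) - A i * pderiv i B)) : B = 0 := by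
  classical
  by_contra hB
  obtain ⟨b, hb⟩ := ne_zero_iff.1 hB
  let s : Finset k := insert (coeff b B)⁻¹ (B.coeffs ∪ univ.biUnion fun i => (A i).coeffs)
  obtain ⟨N, hN⟩ := Lib.helper16.spec k s
  obtain ⟨p, hp, h1, h2⟩ := Nat.exists_prime_gt_modEq_one N hm
  obtain ⟨F, _, _, ⟨ψ⟩⟩ := hN p hp h1
  obtain ⟨r, hr⟩ := (Nat.modEq_iff_dvd' hp.one_le).1 h2.symm
  let R := Subring.closure (s : Set k)
  have lift : ∀ f : MvPolynomial (Fin m) k, f.coeffs ⊆ s → ∃ g, map R.subtype g = f :=
    fun f hf => mem_range_map_iff_coeffs_subset.2 fun x hx =>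
      ⟨⟨x, Subring.subset_closure (hf hx)⟩, rfl⟩
  obtain ⟨B', hB'⟩ := lift B fun x hx => by simp [s, hx]
  choose A' hA using fun i => lift (A i) fun x hx => by
    simp only [s, mem_insert, mem_union, mem_biUnion]
    exact Or.inr (Or.inr ⟨i, mem_univ _, hx⟩)
  have h' : B' ^ 2 = (∑ i, X i ^ m) * ∑ i, (B' * pderiv i (A' i) - A' i * pderiv i B') := by
    apply map_injective R.subtype R.subtype_injective
    simpa [← pderiv_map, hA, hB'] using h
  have h'' := charp p m r hp hm (by have := hp.one_le; omega) (fun i => map ψ (A' i)) (map ψ B')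
    (by simpa [← pderiv_map] using congrArg (map ψ) h')
  have u : coeff b B' * ⟨(coeff b B)⁻¹, Subring.subset_closure (by simp [s])⟩ = 1 := by
    apply Subtype.ext
    have : (coeff b B' : R) = coeff b B := by rw [← hB', coeff_map]; rfl
    simpa [this] using mul_inv_cancel₀ hb
  have := congrArg ψ u
  rw [map_mul, ← coeff_map, h'', map_one] at this
  simp at this

end Pool.Agent.H.MP_4362c3_ag
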